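import Mathlib

set_option autoImplicit false

namespace Pool.Agent.MP_708d71_lc

open Relation

abbrev Str (T N : Type) := List (Symbol T N)
abbrev Rule (T N : Type) := Str T N × Str T N

/-- One jumping derivation step. -/
def JStep {T N : Type} (P : Set (Rule T N)) (x y : Str T N) : Prop :=
  ∃ r ∈ P, ∃ (u v u' v' : Str T N), x = u ++ r.1 ++ v ∧ y = u' ++ r.2 ++ v' ∧ u ++ v = u' ++ v'

def JLang {T N : Type} (P : Set (Rule T N)) (S : N) : Set (List T) :=
  {w | ReflTransGen (JStep P) [Symbol.nonterminal S] (w.map Symbol.terminal)}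

def IsCS {T N : Type} (r : Rule T N) : Prop :=
  ∃ (α β γ : Str T N) (A : N), γ ≠ [] ∧
    r.1 = α ++ [Symbol.nonterminal A] ++ β ∧ r.2 = α ++ γ ++ β

theorem jstep_of {T N : Type} {P : Set (Rule T N)} {X Y : Str T N} (h : (X, Y) ∈ P)
    {u v u' v' : Str T N} (huv : u ++ v = u' ++ v') :
    JStep P (u ++ X ++ v) (u' ++ Y ++ v') :=
  ⟨(X, Y), h, u, v, u', v', rfl, rfl, huv⟩

/-- The set of rules all of whose sides have length at most `b` is finite. -/
theorem finite_rules {T N : Type} [Finite T] [Finite N] (b : ℕ) :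
    {r : Rule T N | r.1.length ≤ b ∧ r.2.length ≤ b}.Finite := by
  have : Finite (Symbol T N) := by
    classical
    have := Fintype.ofFinite T
    have := Fintype.ofFinite N
    exact Finite.of_fintype _
  have h := (List.finite_length_le (Symbol T N) b).prod (List.finite_length_le (Symbol T N) b)
  exact h.subset (fun r hr => ⟨hr.1, hr.2⟩)

section Conv

variable {T N0 : Type}

def IsHead (Hd : N0 → Prop) (s : Symbol T N0) : Prop := ∃ A, s = Symbol.nonterminal A ∧ Hd A

/-- Admissible macro rules: the left side starts with a head, followed by non-head nonterminals;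
the right side has at most one head, and is at least as long. -/
def GoodRule (Hd : N0 → Prop) (r : Rule T N0) : Prop :=
  (∃ (h : N0) (X2 : Str T N0), Hd h ∧ r.1 = Symbol.nonterminal h :: X2 ∧
    ∀ s ∈ X2, ∃ A, s = Symbol.nonterminal A ∧ ¬ Hd A) ∧
  (∃ (Z1 : Str T N0) (s : Symbol T N0) (Z2 : Str T N0), r.2 = Z1 ++ s :: Z2 ∧
    (∀ s ∈ Z1, ¬ IsHead Hd s) ∧ (∀ s ∈ Z2, ¬ IsHead Hd s)) ∧
  r.1.length ≤ r.2.length

variable (Hd : N0 → Prop) (S0 : N0) (R : Set (Rule T N0)) (b : ℕ)

/-- Nonterminals of the context-sensitive grammar. -/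
abbrev N' : Type := N0 ⊕ (↥R × Fin (b + 1))

variable {R b}

def sg (ρ : ↥R) (i : ℕ) : Symbol T (N' R b) := Symbol.nonterminal (Sum.inr (ρ, Fin.ofNat (b + 1) i))

variable (R b)

def em : Symbol T N0 → Symbol T (N' R b)
  | Symbol.terminal a => Symbol.terminal a
  | Symbol.nonterminal A => Symbol.nonterminal (Sum.inl A)

theorem em_injective : Function.Injective (em R b : Symbol T N0 → Symbol T (N' R b)) := by
  intro x y h
  cases x <;> cases y <;> simp_all [em]

theorem em_ne_sg (s : Symbol T N0) (ρ : ↥R) (i : ℕ) : em R b s ≠ sg (b := b) ρ i := by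
  cases s <;> simp [em, sg]

variable {R b}

theorem sg_inj {ρ ρ' : ↥R} {i j : ℕ} (hi : i ≤ b) (hj : j ≤ b)
    (h : (sg (b := b) ρ i : Symbol T (N' R b)) = sg ρ' j) : ρ = ρ' ∧ i = j := by
  unfold sg at h
  have h1 := Sum.inr.inj (Symbol.nonterminal.inj h)
  have h2 := (Prod.mk.inj h1).1
  have h3 := congrArg Fin.val (Prod.mk.inj h1).2
  simp only [Fin.ofNat] at h3
  rw [Nat.mod_eq_of_lt (by omega), Nat.mod_eq_of_lt (by omega)] at h3
  exact ⟨h2, h3⟩

/-- Patterns of the macro rule `ρ`. -/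
def Pat (ρ : ↥R) (Z : Str T (N' R b)) : Prop :=
  Z.length = ρ.1.1.length ∧
  (∀ (i : ℕ) (s : Symbol T (N' R b)), Z[i]? = some s →
    s = sg ρ i ∨ ∃ s0, s = em R b s0 ∧ ¬ IsHead Hd s0) ∧
  ∃ i, i < Z.length ∧ Z[i]? = some (sg ρ i)

variable (R b)

/-- Rules of the context-sensitive grammar. -/
def PP : Set (Rule T (N' R b)) :=
  {r | IsCS r ∧ ∃ ρ : ↥R,
    (r.1 = ρ.1.1.map (em R b) ∧ Pat Hd ρ r.2) ∨ (Pat Hd ρ r.1 ∧ Pat Hd ρ r.2) ∨
    (Pat Hd ρ r.1 ∧ r.2 = ρ.1.2.map (em R b))}

variable {R b}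

theorem count_head_iff (t : Str T N0) : (∀ s ∈ t, ¬ IsHead Hd s) ↔
    (by classical exact t.countP (fun s => decide (IsHead Hd s)) = 0) := by
  classical
  simp [List.countP_eq_zero]

/-- at most one head -/
def AMO (t : Str T N0) : Prop :=
  ∀ (u v : Str T N0) (s : Symbol T N0), t = u ++ s :: v → IsHead Hd s →
    (∀ s ∈ u, ¬ IsHead Hd s) ∧ (∀ s ∈ v, ¬ IsHead Hd s)

theorem amo_of {Z1 Z2 : Str T N0} {s : Symbol T N0} (h1 : ∀ s ∈ Z1, ¬ IsHead Hd s)
    (h2 : ∀ s ∈ Z2, ¬ IsHead Hd s) : AMO Hd (Z1 ++ s :: Z2) := by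
  intro u v s' h hs'
  rw [List.append_eq_append_iff] at h
  rcases h with ⟨a, ha, hb⟩ | ⟨a, ha, hb⟩
  · cases a with
    | nil =>
      simp only [List.append_nil, List.nil_append] at ha hb
      rw [List.cons_eq_cons] at hb
      rw [ha, ← hb.2]
      exact ⟨h1, h2⟩
    | cons x a =>
      rw [List.cons_append, List.cons_eq_cons] at hb
      exfalso
      exact h2 s' (by rw [hb.2]; simp) hs'
  · cases a with
    | nil =>
      simp only [List.append_nil, List.nil_append] at ha hb
      rw [List.cons_eq_cons] at hb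
      rw [← ha, hb.2]
      exact ⟨h1, h2⟩
    | cons x a =>
      rw [List.cons_append, List.cons_eq_cons] at hb
      exfalso
      exact h1 s' (by rw [ha]; simp [hb.1]) hs'

/-- Macro-reachable strings have at most one head. -/
theorem macro_amo (hR : ∀ r ∈ R, GoodRule Hd r) {t : Str T N0}
    (ht : ReflTransGen (JStep R) [Symbol.nonterminal S0] t) : AMO Hd t := by
  induction ht with
  | refl => exact amo_of (Z1 := []) (Z2 := []) Hd (by simp) (by simp)
  | tail _ hst ih =>
    obtain ⟨r, hr, u, v, u', v', h1, h2, h3⟩ := hst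
    obtain ⟨⟨h, X2, hh, hX, hX2⟩, ⟨Z1, s, Z2, hY, hZ1, hZ2⟩, hlen⟩ := hR r hr
    have h4 := ih u (X2 ++ v) (Symbol.nonterminal h) (by rw [h1, hX]; simp) ⟨h, rfl, hh⟩
    rw [h2, hY]
    have h5 : ∀ s ∈ u' ++ v', ¬ IsHead Hd s := by
      rw [← h3]
      intro s hs
      rw [List.mem_append] at hs
      rcases hs with hs | hs
      · exact h4.1 s hs
      · exact h4.2 s (by simp [hs])
    have h6 : u' ++ (Z1 ++ s :: Z2) ++ v' = (u' ++ Z1) ++ s :: (Z2 ++ v') := by simp
    rw [h6]
    apply amo_of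
    · intro s hs
      rw [List.mem_append] at hs
      rcases hs with hs | hs
      · exact h5 s (by simp [hs])
      · exact hZ1 s hs
    · intro s hs
      rw [List.mem_append] at hs
      rcases hs with hs | hs
      · exact hZ2 s hs
      · exact h5 s (by simp [hs])

/-- The invariant for intermediate strings. -/
def Mid (t : Str T (N' R b)) : Prop :=
  ∃ (ρ : ↥R) (u v : Str T N0) (Z : Str T (N' R b)), Pat Hd ρ Z ∧
    (∀ s ∈ u, ¬ IsHead Hd s) ∧ (∀ s ∈ v, ¬ IsHead Hd s) ∧
    t = u.map (em R b) ++ Z ++ v.map (em R b) ∧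
    ∃ u0 v0, u0 ++ v0 = u ++ v ∧
      ReflTransGen (JStep R) [Symbol.nonterminal S0] (u0 ++ ρ.1.1 ++ v0)

def Inv (t : Str T (N' R b)) : Prop :=
  (∃ t0, t = t0.map (em R b) ∧ ReflTransGen (JStep R) [Symbol.nonterminal S0] t0) ∨ Mid Hd S0 t

/-- alignment lemma -/
theorem align (hb : ∀ r ∈ R, r.1.length ≤ b) {ρ ρ' : ↥R} {u v : Str T N0}
    {Z Z' u' v' : Str T (N' R b)}
    (hZ : Pat Hd ρ Z) (hZ' : Pat Hd ρ' Z')
    (h : u.map (em R b) ++ Z ++ v.map (em R b) = u' ++ Z' ++ v') :
    ρ' = ρ ∧ u' = u.map (em R b) ∧ v' = v.map (em R b) ∧ Z' = Z := by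
  obtain ⟨hZl, hZp, -⟩ := hZ
  obtain ⟨hZ'l, hZ'p, i, hi, hi'⟩ := hZ'
  -- the symbol at position `|u'| + i`
  have h1 : (u' ++ Z' ++ v')[u'.length + i]? = some (sg ρ' i) := by
    rw [List.append_assoc, List.getElem?_append_right (by omega),
      List.getElem?_append_left (by omega)]
    simpa using hi'
  rw [← h] at h1
  have hnot : ∀ (w : Str T N0) (j : ℕ), (w.map (em R b))[j]? ≠ some (sg ρ' i) := by
    intro w j hj
    rw [List.getElem?_map] at hj
    cases hw : w[j]? with
    | none => rw [hw] at hj; simp at hj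
    | some s =>
      rw [hw] at hj
      simp only [Option.map_some, Option.some.injEq] at hj
      exact em_ne_sg R b s ρ' i hj
  have hge : u.length ≤ u'.length + i := by
    by_contra hlt
    rw [List.append_assoc, List.getElem?_append_left (by simpa using hlt)] at h1
    exact hnot _ _ h1
  have hlt : u'.length + i < u.length + Z.length := by
    by_contra hlt
    rw [List.getElem?_append_right (by simp; omega)] at h1
    exact hnot _ _ h1
  rw [List.append_assoc, List.getElem?_append_right (by simpa using hge), List.length_map,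
    List.getElem?_append_left (by omega)] at h1
  have hi2 : i ≤ b := by
    have := hb ρ'.1 ρ'.2
    omega
  have hk2 : u'.length + i - u.length ≤ b := by
    have := hb ρ.1 ρ.2
    omega
  rcases hZp _ _ h1 with h2 | ⟨s0, h2, -⟩
  · obtain ⟨h3, h4⟩ := sg_inj hi2 hk2 h2
    subst h3
    have h5 : u'.length = (u.map (em R b)).length := by simp; omega
    rw [List.append_assoc, List.append_assoc] at h
    have h6 := List.append_inj h h5.symm
    have h7 := List.append_inj h6.2 (by rw [hZl, hZ'l])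
    exact ⟨rfl, h6.1.symm, h7.2.symm, h7.1.symm⟩
  · exact absurd h2.symm (em_ne_sg R b s0 ρ' i)

theorem exists_sg_mem {ρ : ↥R} {Z : Str T (N' R b)} (hZ : Pat Hd ρ Z) :
    ∃ i, (sg ρ i : Symbol T (N' R b)) ∈ Z := by
  obtain ⟨-, -, i, hi, hi'⟩ := hZ
  exact ⟨i, List.mem_of_getElem? hi'⟩

theorem inert_map {t : Str T N0} {u' v' : Str T (N' R b)} (h : t.map (em R b) = u' ++ v') :
    ∃ u0 v0, u' = u0.map (em R b) ∧ v' = v0.map (em R b) ∧ t = u0 ++ v0 := by
  rw [List.map_eq_append_iff] at h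
  obtain ⟨a, c, h1, h2, h3⟩ := h
  exact ⟨a, c, h2.symm, h3.symm, h1⟩

theorem inv_step (hR : ∀ r ∈ R, GoodRule Hd r) (hb : ∀ r ∈ R, r.1.length ≤ b)
    {s t : Str T (N' R b)} (hs : Inv Hd S0 s) (hst : JStep (PP Hd R b) s t) : Inv Hd S0 t := by
  obtain ⟨r, ⟨-, ρ, hr⟩, u, v, u', v', h1, h2, h3⟩ := hst
  obtain ⟨⟨h, X2, hh, hX, hX2⟩, -, -⟩ := hR ρ.1 ρ.2
  rcases hs with ⟨s0, hs0, hreach⟩ | ⟨ρ0, u0, v0, Z0, hZ0, hu0, hv0, hs0, a0, b0, hab, hreach⟩
  · have hnos : ¬ Pat Hd ρ r.1 := by
      intro hp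
      obtain ⟨i, hi⟩ := exists_sg_mem Hd hp
      have : (sg ρ i : Symbol T (N' R b)) ∈ s := by rw [h1]; simp [hi]
      rw [hs0, List.mem_map] at this
      obtain ⟨x, -, hx⟩ := this
      exact em_ne_sg R b x ρ i hx
    rcases hr with ⟨hr1, hr2⟩ | ⟨hr1, -⟩ | ⟨hr1, -⟩
    · rw [hs0, hr1, List.append_assoc] at h1
      obtain ⟨a, c, ha, hc, hac⟩ := inert_map h1
      have hc' := hc.symm
      obtain ⟨x, d, hx, hd, hxd⟩ := inert_map hc'
      have hx' : x = ρ.1.1 := (List.map_injective_iff.mpr (em_injective R b) hx).symm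
      subst hx'
      subst hxd
      have hamo := macro_amo Hd S0 hR hreach
      have h4 := hamo a (X2 ++ d) (Symbol.nonterminal h) (by rw [hac, hX]; simp) ⟨h, rfl, hh⟩
      rw [ha, hd, ← List.map_append] at h3
      obtain ⟨a', d', ha', hd', had⟩ := inert_map h3
      have h5 : ∀ s ∈ a' ++ d', ¬ IsHead Hd s := by
        rw [← had]
        intro s hs
        rw [List.mem_append] at hs
        rcases hs with hs | hs
        · exact h4.1 s hs
        · exact h4.2 s (by simp [hs])
      right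
      refine ⟨ρ, a', d', r.2, hr2, fun s hs => h5 s (by simp [hs]), fun s hs => h5 s (by simp [hs]),
        by rw [h2, ha', hd'], a, d, had, ?_⟩
      rw [List.append_assoc, ← hac]
      exact hreach
    · exact absurd hr1 hnos
    · exact absurd hr1 hnos
  · have hk : ∀ (hp : Pat Hd ρ r.1), ρ = ρ0 ∧ ∃ u1 v1, u' = u1.map (em R b) ∧
        v' = v1.map (em R b) ∧ u0 ++ v0 = u1 ++ v1 := by
      intro hp
      obtain ⟨e1, e2, e3, e4⟩ := align Hd hb hZ0 hp (hs0.symm.trans h1)
      rw [e2, e3, ← List.map_append] at h3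
      obtain ⟨a', d', ha', hd', had⟩ := inert_map h3
      exact ⟨e1, a', d', ha', hd', had⟩
    have hin : ∀ s ∈ u0 ++ v0, ¬ IsHead Hd s := by
      intro s hs
      rw [List.mem_append] at hs
      rcases hs with hs | hs
      · exact hu0 s hs
      · exact hv0 s hs
    rcases hr with ⟨hr1, hr2⟩ | ⟨hr1, hr2⟩ | ⟨hr1, hr2⟩
    · exfalso
      -- the head `h` occurs in `s`
      have hmem : (Symbol.nonterminal (Sum.inl h) : Symbol T (N' R b)) ∈ s := by
        rw [h1, hr1, hX]; simp [em]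
      rw [hs0] at hmem
      have hnot : ∀ (w : Str T N0), (∀ s ∈ w, ¬ IsHead Hd s) →
          (Symbol.nonterminal (Sum.inl h) : Symbol T (N' R b)) ∉ w.map (em R b) := by
        intro w hw hm
        rw [List.mem_map] at hm
        obtain ⟨x, hx, hx'⟩ := hm
        have : x = Symbol.nonterminal h := em_injective R b (by rw [hx']; rfl)
        exact hw x hx ⟨h, this, hh⟩
      rw [List.mem_append, List.mem_append] at hmem
      rcases hmem with (hm | hm) | hm
      · exact hnot u0 hu0 hm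
      · obtain ⟨i, hi⟩ := List.getElem?_of_mem hm
        rcases hZ0.2.1 i _ hi with h6 | ⟨x, hx, hx'⟩
        · exact em_ne_sg R b (Symbol.nonterminal h) ρ0 i h6
        · have : x = Symbol.nonterminal h := em_injective R b (by rw [← hx]; rfl)
          exact hx' ⟨h, this, hh⟩
      · exact hnot v0 hv0 hm
    · obtain ⟨rfl, u1, v1, hu1, hv1, huv⟩ := hk hr1
      right
      refine ⟨ρ, u1, v1, r.2, hr2, fun s hs => hin s (by rw [huv]; simp [hs]),
        fun s hs => hin s (by rw [huv]; simp [hs]), by rw [h2, hu1, hv1], a0, b0,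
        by rw [hab, huv], hreach⟩
    · obtain ⟨rfl, u1, v1, hu1, hv1, huv⟩ := hk hr1
      left
      refine ⟨u1 ++ ρ.1.2 ++ v1, by rw [h2, hu1, hv1, hr2]; simp, ?_⟩
      refine hreach.tail ⟨ρ.1, ρ.2, a0, b0, u1, v1, rfl, rfl, by rw [hab, huv]⟩

theorem sound (hR : ∀ r ∈ R, GoodRule Hd r) (hb : ∀ r ∈ R, r.1.length ≤ b) {w : List T}
    (hw : w ∈ JLang (PP Hd R b) (Sum.inl S0)) : w ∈ JLang R S0 := by
  have key : ∀ t, ReflTransGen (JStep (PP Hd R b)) [Symbol.nonterminal (Sum.inl S0)] t →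
      Inv Hd S0 t := by
    intro t ht
    induction ht with
    | refl => exact Or.inl ⟨[Symbol.nonterminal S0], rfl, ReflTransGen.refl⟩
    | tail _ hst ih => exact inv_step Hd S0 hR hb ih hst
  rcases key _ hw with ⟨t0, ht0, hreach⟩ | ⟨ρ, u, v, Z, hZ, -, -, ht, -⟩
  · have h1 : w.map Symbol.terminal = t0 := by
      apply List.map_injective_iff.mpr (em_injective R b)
      rw [← ht0, List.map_map]
      rfl
    show ReflTransGen _ _ _
    rw [h1]
    exact hreach
  · exfalso
    obtain ⟨i, hi⟩ := exists_sg_mem Hd hZ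
    have : (sg ρ i : Symbol T (N' R b)) ∈ w.map Symbol.terminal := by rw [ht]; simp [hi]
    rw [List.mem_map] at this
    obtain ⟨x, -, hx⟩ := this
    simp [sg] at hx

/-- Chain of pattern changes. -/
theorem chain {ρ : ↥R} {Z Z' : Str T (N' R b)} (hZ : Pat Hd ρ Z) (hZ' : Pat Hd ρ Z') (d : ℕ)
    (hd : Z[d]? = some (sg ρ d)) (hd' : Z'[d]? = some (sg ρ d))
    (hnt : ∀ s ∈ Z, ∃ A, s = Symbol.nonterminal A) (u v : Str T (N' R b)) :
    ReflTransGen (JStep (PP Hd R b)) (u ++ Z ++ v) (u ++ Z' ++ v) := by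
  have hlen : Z.length = Z'.length := by rw [hZ.1, hZ'.1]
  have hdlt : d < Z.length := by
    by_contra hlt
    rw [List.getElem?_eq_none (by omega)] at hd
    simp at hd
  have hget : ∀ j, j ≤ Z.length → ∀ i, (Z'.take j ++ Z.drop j)[i]? = if i < j then Z'[i]? else Z[i]? := by
    intro j hj i
    split_ifs with hij
    · rw [List.getElem?_append_left (by simp; omega), List.getElem?_take_of_lt hij]
    · rw [List.getElem?_append_right (by simp; omega), List.getElem?_drop]
      congr 1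
      simp
      omega
  have hpat : ∀ j, j ≤ Z.length → Pat Hd ρ (Z'.take j ++ Z.drop j) := by
    intro j hj
    refine ⟨by simp [← hlen, hZ.1]; have := hZ.1; omega, ?_, d, ?_, ?_⟩
    · intro i s hs
      rw [hget j hj i] at hs
      split_ifs at hs with hij
      · exact hZ'.2.1 i s hs
      · exact hZ.2.1 i s hs
    · simp; omega
    · rw [hget j hj d]
      split_ifs <;> assumption
  have main : ∀ j, j ≤ Z.length → ReflTransGen (JStep (PP Hd R b)) (u ++ Z ++ v)
      (u ++ (Z'.take j ++ Z.drop j) ++ v) := by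
    intro j
    induction j with
    | zero => intro _; simpa using ReflTransGen.refl
    | succ j ih =>
      intro hj
      refine (ih (by omega)).tail ?_
      apply jstep_of _ rfl
      have hj1 : j < Z.length := by omega
      have hj2 : j < Z'.length := by omega
      obtain ⟨A, hA⟩ := hnt Z[j] (List.getElem_mem hj1)
      refine ⟨⟨Z'.take j, Z.drop (j + 1), [Z'[j]], A, by simp, ?_, ?_⟩, ρ,
        Or.inr (Or.inl ⟨hpat j (by omega), hpat (j + 1) hj⟩)⟩
      · show Z'.take j ++ Z.drop j = _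
        rw [← hA, List.drop_eq_getElem_cons hj1]
        simp
      · show Z'.take (j + 1) ++ Z.drop (j + 1) = _
        rw [List.take_succ_eq_append_getElem hj2]
  have := main Z.length le_rfl
  rw [List.drop_length, List.append_nil, hlen, List.take_length] at this
  exact this

theorem complete_step (hR : ∀ r ∈ R, GoodRule Hd r) (hb : ∀ r ∈ R, r.1.length ≤ b)
    {s t : Str T N0} (hst : JStep R s t) :
    ReflTransGen (JStep (PP Hd R b)) (s.map (em R b)) (t.map (em R b)) := by
  obtain ⟨r, hr, u, v, u', v', h1, h2, h3⟩ := hst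
  obtain ⟨⟨h, X2, hh, hX, hX2⟩, ⟨Z1, s0, Z2, hY, hZ1, hZ2⟩, hlen⟩ := hR r hr
  have hbr := hb r hr
  set ρ : ↥R := ⟨r, hr⟩ with hρ
  have hp : r.1.length = X2.length + 1 := by rw [hX]; simp
  -- decomposition of the right side
  obtain ⟨Y1, γ, Y2, hYd, hYl, hγ, hY1, hY2⟩ : ∃ Y1 γ Y2 : Str T N0, r.2 = Y1 ++ γ ++ Y2 ∧
      X2.length = Y1.length + Y2.length ∧ γ ≠ [] ∧ (∀ s ∈ Y1, ¬ IsHead Hd s) ∧
      (∀ s ∈ Y2, ¬ IsHead Hd s) := by
    have hYl : r.2.length = Z1.length + 1 + Z2.length := by rw [hY]; simp; omega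
    by_cases hc : Z1.length ≤ X2.length
    · refine ⟨Z1, s0 :: Z2.take (Z2.length - (X2.length - Z1.length)),
        Z2.drop (Z2.length - (X2.length - Z1.length)), ?_, ?_, by simp, hZ1, ?_⟩
      · rw [hY]; simp
      · simp; omega
      · intro s hs
        exact hZ2 s (List.mem_of_mem_drop hs)
    · refine ⟨Z1.take X2.length, Z1.drop X2.length ++ s0 :: Z2, [], ?_, ?_, by simp, ?_, by simp⟩
      · rw [hY, List.append_nil, ← List.append_assoc, List.take_append_drop]
      · simp; omega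
      · intro s hs
        exact hZ1 s (List.mem_of_mem_take hs)
  -- the patterns
  have hpat0 : Pat Hd ρ (sg ρ 0 :: X2.map (em R b)) := by
    refine ⟨by simp [hρ, hp], ?_, 0, by simp, by simp⟩
    intro i s hs
    cases i with
    | zero => left; simpa using hs.symm
    | succ i =>
      right
      simp only [List.getElem?_cons_succ, List.getElem?_map, Option.map_eq_some_iff] at hs
      obtain ⟨x, hx, hx'⟩ := hs
      obtain ⟨A, hA, hA'⟩ := hX2 x (List.mem_of_getElem? hx)
      refine ⟨x, hx'.symm, ?_⟩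
      rintro ⟨B, hB, hB'⟩
      rw [hA] at hB
      exact hA' (Symbol.nonterminal.inj hB ▸ hB')
  have hSpget : ∀ i s, ((List.range r.1.length).map (sg (b := b) ρ))[i]? = some s →
      s = sg ρ i := by
    intro i s hs
    simp only [List.getElem?_map, Option.map_eq_some_iff] at hs
    obtain ⟨x, hx, hx'⟩ := hs
    rw [List.getElem?_eq_some_iff] at hx
    obtain ⟨h4, h5⟩ := hx
    rw [List.getElem_range] at h5
    rw [← hx', h5]
  have hSpget' : ∀ i, i < r.1.length →
      ((List.range r.1.length).map (sg (b := b) ρ))[i]? = some (sg ρ i) := by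
    intro i hi
    simp [hi]
  have hpat1 : Pat Hd ρ ((List.range r.1.length).map (sg (b := b) ρ)) := by
    refine ⟨by simp [hρ], fun i s hs => Or.inl (hSpget i s hs), 0, by simp; omega, hSpget' 0 (by omega)⟩
  have hpat2 : Pat Hd ρ (Y1.map (em R b) ++ [sg ρ Y1.length] ++ Y2.map (em R b)) := by
    have hYd' : (Y1.map (em R b) ++ [sg ρ Y1.length] ++ Y2.map (em R b))[Y1.length]? =
        some (sg ρ Y1.length) := by
      rw [List.append_assoc, List.getElem?_append_right (by simp)]
      simp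
    refine ⟨by simp [hρ]; omega, ?_, Y1.length, by simp, hYd'⟩
    intro i s hs
    by_cases hi : i < Y1.length
    · right
      rw [List.append_assoc, List.getElem?_append_left (by simpa using hi)] at hs
      simp only [List.getElem?_map, Option.map_eq_some_iff] at hs
      obtain ⟨x, hx, hx'⟩ := hs
      exact ⟨x, hx'.symm, hY1 x (List.mem_of_getElem? hx)⟩
    · by_cases hi' : i = Y1.length
      · left
        rw [hi'] at hs ⊢
        rw [hYd'] at hs
        exact (Option.some.inj hs).symm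
      · right
        rw [List.getElem?_append_right (by simp; omega)] at hs
        simp only [List.getElem?_map, Option.map_eq_some_iff] at hs
        obtain ⟨x, hx, hx'⟩ := hs
        exact ⟨x, hx'.symm, hY2 x (List.mem_of_getElem? hx)⟩
  rw [h1, h2]
  simp only [List.map_append]
  -- step 0
  have st0 : JStep (PP Hd R b) (u.map (em R b) ++ r.1.map (em R b) ++ v.map (em R b))
      (u.map (em R b) ++ (sg ρ 0 :: X2.map (em R b)) ++ v.map (em R b)) := by
    apply jstep_of _ rfl
    refine ⟨⟨[], X2.map (em R b), [sg ρ 0], Sum.inl h, by simp, ?_, by simp⟩, ρ,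
      Or.inl ⟨rfl, hpat0⟩⟩
    show r.1.map (em R b) = _
    rw [hX]
    rfl
  have st1 := chain Hd hpat0 hpat1 0 (by simp) (hSpget' 0 (by omega)) (by
    intro s hs
    rw [List.mem_cons] at hs
    rcases hs with hs | hs
    · exact ⟨_, hs⟩
    · rw [List.mem_map] at hs
      obtain ⟨x, hx, hx'⟩ := hs
      obtain ⟨A, hA, -⟩ := hX2 x hx
      exact ⟨Sum.inl A, by rw [← hx', hA]; rfl⟩) (u.map (em R b)) (v.map (em R b))
  have st2 := chain Hd hpat1 hpat2 Y1.length (hSpget' _ (by omega)) (by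
      rw [List.append_assoc, List.getElem?_append_right (by simp)]
      simp) (by
    intro s hs
    rw [List.mem_map] at hs
    obtain ⟨x, hx, hx'⟩ := hs
    exact ⟨_, hx'.symm⟩) (u.map (em R b)) (v.map (em R b))
  have st3 : JStep (PP Hd R b)
      (u.map (em R b) ++ (Y1.map (em R b) ++ [sg ρ Y1.length] ++ Y2.map (em R b)) ++ v.map (em R b))
      (u'.map (em R b) ++ r.2.map (em R b) ++ v'.map (em R b)) := by
    apply jstep_of
    · refine ⟨⟨Y1.map (em R b), Y2.map (em R b), γ.map (em R b), _, by simpa using hγ, rfl, ?_⟩, ρ,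
        Or.inr (Or.inr ⟨hpat2, rfl⟩)⟩
      show r.2.map (em R b) = _
      rw [hYd]
      simp
    · rw [← List.map_append, ← List.map_append, h3]
  exact ((ReflTransGen.single st0).trans (st1.trans st2)).tail st3

theorem complete (hR : ∀ r ∈ R, GoodRule Hd r) (hb : ∀ r ∈ R, r.1.length ≤ b) {w : List T}
    (hw : w ∈ JLang R S0) : w ∈ JLang (PP Hd R b) (Sum.inl S0) := by
  have key : ∀ t, ReflTransGen (JStep R) [Symbol.nonterminal S0] t →
      ReflTransGen (JStep (PP Hd R b)) [Symbol.nonterminal (Sum.inl S0)] (t.map (em R b)) := by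
    intro t ht
    induction ht with
    | refl => exact ReflTransGen.refl
    | tail _ hst ih => exact ih.trans (complete_step Hd hR hb hst)
  have h1 := key _ hw
  rw [List.map_map] at h1
  exact h1

end Conv

/-- Conversion lemma: an admissible one-head macro grammar has an equivalent context-sensitive
jumping grammar. -/
theorem conv {T N0 : Type} [Finite T] [Finite N0] (Hd : N0 → Prop) (S0 : N0)
    (R : Set (Rule T N0)) (hfin : R.Finite) (hR : ∀ r ∈ R, GoodRule Hd r) :
    ∃ (N1 : Type) (_ : Fintype N1) (S1 : N1) (P1 : Set (Rule T N1)), P1.Finite ∧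
      (∀ r ∈ P1, IsCS r) ∧ JLang P1 S1 = JLang R S0 := by
  classical
  obtain ⟨b, hb⟩ : ∃ b, ∀ r ∈ R, r.1.length ≤ b ∧ r.2.length ≤ b := by
    have h1 := hfin.image (fun r : Rule T N0 => max r.1.length r.2.length)
    obtain ⟨b, hb⟩ := h1.bddAbove
    refine ⟨b, fun r hr => ?_⟩
    have : max r.1.length r.2.length ≤ b :=
      hb (Set.mem_image_of_mem (fun r : Rule T N0 => max r.1.length r.2.length) hr)
    exact ⟨le_trans (le_max_left _ _) this, le_trans (le_max_right _ _) this⟩
  have : Finite ↥R := hfin.to_subtype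
  have : Finite (N' R b) := inferInstance
  refine ⟨N' R b, Fintype.ofFinite _, Sum.inl S0, PP Hd R b, ?_, ?_, ?_⟩
  · apply (finite_rules (T := T) (N := N' R b) b).subset
    rintro r ⟨-, ρ, ⟨h1, h2⟩ | ⟨h1, h2⟩ | ⟨h1, h2⟩⟩
    · exact ⟨by rw [h1]; simpa using (hb ρ.1 ρ.2).1, by rw [h2.1]; exact (hb ρ.1 ρ.2).1⟩
    · exact ⟨by rw [h1.1]; exact (hb ρ.1 ρ.2).1, by rw [h2.1]; exact (hb ρ.1 ρ.2).1⟩
    · exact ⟨by rw [h1.1]; exact (hb ρ.1 ρ.2).1, by rw [h2]; simpa using (hb ρ.1 ρ.2).2⟩
  · exact fun r hr => hr.1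
  · ext w
    exact ⟨fun h => sound Hd S0 hR (fun r hr => (hb r hr).1) h,
      fun h => complete Hd S0 hR (fun r hr => (hb r hr).1) h⟩

end Pool.Agent.MP_708d71_lc
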