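import Pool.Agent.MP_708d71_lc.Conv

set_option autoImplicit false

namespace Pool.Agent.MP_708d71_lc

open Relation

/-! ### Step 0: left sides without terminals -/

section Zero

variable {T N : Type}

def pr : Symbol T (Symbol T N) → Symbol T N
  | Symbol.terminal a => Symbol.terminal a
  | Symbol.nonterminal X => X

def P1 (P : Set (Rule T N)) : Set (Rule T (Symbol T N)) :=
  {r | ∃ x, (x, r.2.map pr) ∈ P ∧ r.1 = x.map Symbol.nonterminal}

theorem map_pr_nt (x : Str T N) : (x.map Symbol.nonterminal).map (pr (T := T) (N := N)) = x := by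
  rw [List.map_map]
  have : (pr (T := T) (N := N)) ∘ Symbol.nonterminal = id := by
    funext s; rfl
  rw [this, List.map_id]

theorem map_pr_t (w : List T) :
    (w.map Symbol.terminal).map (pr (T := T) (N := N)) = w.map Symbol.terminal := by
  rw [List.map_map]
  rfl

theorem lang_P1 (P : Set (Rule T N)) (S : N) :
    JLang (P1 P) (Symbol.nonterminal S) = JLang P S := by
  ext w
  constructor
  · intro h
    have key : ∀ t, ReflTransGen (JStep (P1 P)) [Symbol.nonterminal (Symbol.nonterminal S)] t →
        ReflTransGen (JStep P) [Symbol.nonterminal S] (t.map pr) := by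
      intro t ht
      induction ht with
      | refl => exact ReflTransGen.refl
      | tail _ hst ih =>
        obtain ⟨r, ⟨x, hx, hx'⟩, u, v, u', v', h1, h2, h3⟩ := hst
        refine ih.tail ?_
        rw [h1, h2, hx']
        simp only [List.map_append, map_pr_nt]
        apply jstep_of hx
        rw [← List.map_append, h3, List.map_append]
    have h1 := key _ h
    rw [map_pr_t] at h1
    exact h1
  · intro h
    have key : ∀ s, ReflTransGen (JStep P) s (w.map Symbol.terminal) →
        ∃ s' : Str T (Symbol T N), s'.map pr = s ∧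
          ReflTransGen (JStep (P1 P)) s' (w.map Symbol.terminal) := by
      intro s hs
      induction hs using ReflTransGen.head_induction_on with
      | refl => exact ⟨w.map Symbol.terminal, map_pr_t w, ReflTransGen.refl⟩
      | head hst _ ih =>
        obtain ⟨s', hs', hr'⟩ := ih
        obtain ⟨⟨x, y⟩, hr, u, v, u', v', h1, h2, h3⟩ := hst
        rw [h2] at hs'
        rw [List.append_assoc, List.map_eq_append_iff] at hs'
        obtain ⟨a, bc, rfl, ha, hbc⟩ := hs'
        rw [List.map_eq_append_iff] at hbc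
        obtain ⟨b, c, rfl, hb, hc⟩ := hbc
        have h4 : (a ++ c).map pr = u ++ v := by rw [List.map_append, ha, hc, h3]
        rw [List.map_eq_append_iff] at h4
        obtain ⟨u1, v1, h5, hu1, hv1⟩ := h4
        refine ⟨u1 ++ x.map Symbol.nonterminal ++ v1, ?_, ?_⟩
        · rw [h1]
          simp only [List.map_append, map_pr_nt, hu1, hv1]
        · refine ReflTransGen.head ?_ hr'
          rw [← List.append_assoc]
          have hmem : ((x.map Symbol.nonterminal, b) : Rule T (Symbol T N)) ∈ P1 P :=
            ⟨x, by show (x, b.map pr) ∈ P; rw [hb]; exact hr, rfl⟩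
          exact jstep_of hmem h5.symm
    obtain ⟨s', hs', hr'⟩ := key _ h
    have h1 : s' = [Symbol.nonterminal (Symbol.nonterminal S)] := by
      cases s' with
      | nil => simp at hs'
      | cons a l =>
        cases l with
        | nil =>
          simp only [List.map_cons, List.map_nil, List.cons.injEq, and_true] at hs'
          cases a with
          | terminal a => simp [pr] at hs'
          | nonterminal X =>
            simp only [pr] at hs'
            rw [hs']
        | cons b l => simp at hs'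
    rw [h1] at hr'
    exact hr'

end Zero

/-! ### Step 1: the token grammar -/

section Token

inductive NT (T N : Type) (P : Set (Rule T N)) (K : ℕ) : Type
  | sim (A : N) : NT T N P K
  | fill : NT T N P K
  | start : NT T N P K
  | flo (r : ↥P) : NT T N P K
  | ab (r : ↥P) (p : {l : List (Symbol T N) // l.length ≤ K}) : NT T N P K

variable {T N : Type} (P : Set (Rule T N)) (K : ℕ) (S : N)

theorem finite_NT [Finite T] [Finite N] (hP : P.Finite) : Finite (NT T N P K) := by
  have h1 : Finite ↥P := hP.to_subtype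
  have h2 : Finite (Symbol T N) := by
    classical
    have := Fintype.ofFinite T
    have := Fintype.ofFinite N
    exact Finite.of_fintype _
  have h3 : Finite {l : List (Symbol T N) // l.length ≤ K} :=
    (List.finite_length_le (Symbol T N) K).to_subtype
  let f : NT T N P K → N ⊕ (Bool ⊕ (↥P ⊕ (↥P × {l : List (Symbol T N) // l.length ≤ K}))) :=
    fun x => match x with
      | NT.sim A => Sum.inl A
      | NT.fill => Sum.inr (Sum.inl true)
      | NT.start => Sum.inr (Sum.inl false)
      | NT.flo r => Sum.inr (Sum.inr (Sum.inl r))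
      | NT.ab r p => Sum.inr (Sum.inr (Sum.inr (r, p)))
  apply Finite.of_injective f
  intro x y hxy
  cases x <;> cases y <;> simp_all [f]

def HdT : NT T N P K → Prop
  | NT.sim _ => False
  | NT.fill => False
  | NT.start => True
  | NT.flo _ => True
  | NT.ab _ _ => True

def e1 : Symbol T N → Symbol T (NT T N P K)
  | Symbol.terminal a => Symbol.terminal a
  | Symbol.nonterminal A => Symbol.nonterminal (NT.sim A)

variable {P K}

theorem e1_injective : Function.Injective (e1 P K : Symbol T N → _) := by
  intro x y h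
  cases x <;> cases y <;> simp_all [e1]

def tok (n : ℕ) (h : NT T N P K) : Str T (NT T N P K) :=
  Symbol.nonterminal h :: List.replicate (n - 1) (Symbol.nonterminal NT.fill)

/-- The overlap relation: `y` floats, next left side is `x`; the overlap part has length `e`;
`p` is the part of `x` outside the overlap, `w` the part of `y` outside of it. -/
def Ov (y x w p : Str T N) (e : ℕ) : Prop :=
  1 ≤ e ∧ e + p.length = x.length ∧ w.length + e = y.length ∧ (∀ s ∈ p, s ∈ x) ∧
  ∀ c d : Str T N, ∃ α β a b : Str T N, α ++ β = c ++ p ++ d ∧ α ++ y ++ β = a ++ x ++ b ∧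
    a ++ b = c ++ w ++ d

variable (P K)

inductive RR : Rule T (NT T N P K) → Prop
  | start (r : ↥P) (h : r.1.1 = [Symbol.nonterminal S]) :
      RR ([Symbol.nonterminal NT.start], tok r.1.2.length (NT.flo r))
  | roam (r : ↥P) : RR (tok r.1.2.length (NT.flo r), tok r.1.2.length (NT.flo r))
  | fin (r : ↥P) : RR (tok r.1.2.length (NT.flo r), r.1.2.map (e1 P K))
  | far (r r' : ↥P) : RR (tok r.1.2.length (NT.flo r) ++ r'.1.1.map (e1 P K),
      tok r'.1.2.length (NT.flo r') ++ r.1.2.map (e1 P K))
  | put (r r' : ↥P) (w : Str T N) (p : {l : List (Symbol T N) // l.length ≤ K}) (e : ℕ)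
      (hO : Ov r.1.2 r'.1.1 w p.1 e) :
      RR (tok r.1.2.length (NT.flo r), w.map (e1 P K) ++ tok e (NT.ab r' p))
  | take (r' : ↥P) (p : {l : List (Symbol T N) // l.length ≤ K}) (e : ℕ) (he : 1 ≤ e)
      (hep : e + p.1.length = r'.1.1.length) (hp : ∀ s ∈ p.1, s ∈ r'.1.1) :
      RR (tok e (NT.ab r' p) ++ p.1.map (e1 P K), tok r'.1.2.length (NT.flo r'))

variable {P K}

theorem not_head_e1 (s : Symbol T N) : ¬ IsHead (HdT P K) (e1 P K s) := by
  rintro ⟨A, hA, hA'⟩
  cases s with
  | terminal a => simp [e1] at hA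
  | nonterminal B =>
    simp only [e1, Symbol.nonterminal.injEq] at hA
    rw [← hA] at hA'
    exact hA'

theorem not_head_map (u : Str T N) : ∀ s ∈ u.map (e1 P K), ¬ IsHead (HdT P K) s := by
  intro s hs
  rw [List.mem_map] at hs
  obtain ⟨x, -, rfl⟩ := hs
  exact not_head_e1 x

theorem not_head_fill (n : ℕ) :
    ∀ s ∈ (List.replicate n (Symbol.nonterminal NT.fill) : Str T (NT T N P K)),
      ¬ IsHead (HdT P K) s := by
  intro s hs
  rw [List.mem_replicate] at hs
  rintro ⟨A, hA, hA'⟩
  rw [hs.2, Symbol.nonterminal.injEq] at hA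
  rw [← hA] at hA'
  exact hA'

theorem length_tok {n : ℕ} (hn : 1 ≤ n) (h : NT T N P K) : (tok n h).length = n := by
  simp [tok]; omega

/-- general form of good rules whose right side has its head (if any) first -/
theorem good_of_first {X2 Yt : Str T (NT T N P K)} {h : NT T N P K} {s : Symbol T (NT T N P K)}
    (hh : HdT P K h) (hX : ∀ s ∈ X2, ∃ A, s = Symbol.nonterminal A ∧ ¬ HdT P K A)
    (hY : ∀ s ∈ Yt, ¬ IsHead (HdT P K) s) (hl : X2.length ≤ Yt.length) :
    GoodRule (HdT P K) (Symbol.nonterminal h :: X2, s :: Yt) :=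
  ⟨⟨h, X2, hh, rfl, hX⟩, ⟨[], s, Yt, rfl, by simp, hY⟩, by simpa using hl⟩

theorem nt_fill (n : ℕ) :
    ∀ s ∈ (List.replicate n (Symbol.nonterminal NT.fill) : Str T (NT T N P K)),
      ∃ A, s = Symbol.nonterminal A ∧ ¬ HdT P K A := by
  intro s hs
  rw [List.mem_replicate] at hs
  exact ⟨NT.fill, hs.2, fun h => h⟩

theorem nt_map {x : Str T N} (hx : ∀ s ∈ x, ∃ A, s = Symbol.nonterminal A) :
    ∀ s ∈ x.map (e1 P K), ∃ A, s = Symbol.nonterminal A ∧ ¬ HdT P K A := by
  intro s hs
  rw [List.mem_map] at hs
  obtain ⟨y, hy, rfl⟩ := hs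
  obtain ⟨A, rfl⟩ := hx y hy
  exact ⟨NT.sim A, rfl, fun h => h⟩

variable (P)

/-- Assumptions on the monotone grammar. -/
structure Mono : Prop where
  ne : ∀ r ∈ P, r.1 ≠ []
  nt : ∀ r ∈ P, ∀ s ∈ r.1, ∃ A, s = Symbol.nonterminal A
  le : ∀ r ∈ P, r.1.length ≤ r.2.length

variable {P}

theorem Mono.one_le (hM : Mono P) (r : ↥P) : 1 ≤ r.1.1.length := by
  have := hM.ne r.1 r.2
  rcases h : r.1.1 with _ | ⟨a, l⟩
  · exact absurd h this
  · simp

theorem Mono.one_le' (hM : Mono P) (r : ↥P) : 1 ≤ r.1.2.length :=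
  le_trans (hM.one_le r) (hM.le r.1 r.2)

theorem good (hM : Mono P) : ∀ r, RR P K S r → GoodRule (HdT P K) r := by
  intro r hr
  have app : ∀ {A B : Str T (NT T N P K)}, (∀ s ∈ A, ∃ A, s = Symbol.nonterminal A ∧ ¬ HdT P K A) →
      (∀ s ∈ B, ∃ A, s = Symbol.nonterminal A ∧ ¬ HdT P K A) →
      ∀ s ∈ A ++ B, ∃ A, s = Symbol.nonterminal A ∧ ¬ HdT P K A := by
    intro A B hA hB s hs
    rw [List.mem_append] at hs
    rcases hs with hs | hs
    · exact hA s hs
    · exact hB s hs
  have app' : ∀ {A B : Str T (NT T N P K)}, (∀ s ∈ A, ¬ IsHead (HdT P K) s) →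
      (∀ s ∈ B, ¬ IsHead (HdT P K) s) → ∀ s ∈ A ++ B, ¬ IsHead (HdT P K) s := by
    intro A B hA hB s hs
    rw [List.mem_append] at hs
    rcases hs with hs | hs
    · exact hA s hs
    · exact hB s hs
  cases hr with
  | start r h => exact good_of_first trivial (by simp) (not_head_fill _) (by simp)
  | roam r => exact good_of_first trivial (nt_fill _) (not_head_fill _) le_rfl
  | fin r =>
    have h1 := hM.one_le' r
    rcases hy : r.1.2 with _ | ⟨a, l⟩
    · rw [hy] at h1; simp at h1
    · exact good_of_first trivial (nt_fill _) (not_head_map l) (by simp)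
  | far r r' =>
    refine good_of_first trivial (app (nt_fill _) (nt_map (hM.nt _ r'.2)))
      (app' (not_head_fill _) (not_head_map _)) ?_
    have h1 := hM.le _ r'.2
    have h2 := hM.one_le r'
    have h3 := hM.one_le' r
    simp
    omega
  | put r r' w p e hO =>
    obtain ⟨h1, h2, h3, -, -⟩ := hO
    refine ⟨⟨NT.flo r, _, trivial, rfl, nt_fill _⟩, ⟨w.map (e1 P K), _, _, rfl, not_head_map w,
      not_head_fill _⟩, ?_⟩
    simp [tok]
    omega
  | take r' p e he hep hp =>
    refine good_of_first trivial (app (nt_fill _) (nt_map fun s hs => hM.nt _ r'.2 s (hp s hs)))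
      (not_head_fill _) ?_
    have h1 := hM.le _ r'.2
    simp
    omega

/-- Alignment of the unique head. -/
theorem head_align {N0 : Type} {Hd : N0 → Prop} {u F U W : Str T N0} {h h' : N0}
    (hu : ∀ s ∈ u, ¬ IsHead Hd s) (hF : ∀ s ∈ F, ¬ IsHead Hd s) (hh' : Hd h')
    (heq : u ++ Symbol.nonterminal h :: F = U ++ Symbol.nonterminal h' :: W) :
    U = u ∧ h' = h ∧ W = F := by
  rw [List.append_eq_append_iff] at heq
  rcases heq with ⟨a, ha, hb⟩ | ⟨a, ha, hb⟩
  · cases a with
    | nil =>
      simp only [List.append_nil, List.nil_append] at ha hb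
      rw [List.cons_eq_cons] at hb
      exact ⟨ha, (Symbol.nonterminal.inj hb.1).symm, hb.2.symm⟩
    | cons x a =>
      rw [List.cons_append, List.cons_eq_cons] at hb
      exfalso
      exact hF (Symbol.nonterminal h') (by rw [hb.2]; simp) ⟨h', rfl, hh'⟩
  · cases a with
    | nil =>
      simp only [List.append_nil, List.nil_append] at ha hb
      rw [List.cons_eq_cons] at hb
      exact ⟨ha.symm, Symbol.nonterminal.inj hb.1, hb.2⟩
    | cons x a =>
      rw [List.cons_append, List.cons_eq_cons] at hb
      exfalso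
      exact hu (Symbol.nonterminal h') (by rw [ha]; simp [hb.1]) ⟨h', rfl, hh'⟩

variable (P) in
def GR (s : Str T N) : Prop := ReflTransGen (JStep P) [Symbol.nonterminal S] s

variable (P K) in
inductive MInv : Str T (NT T N P K) → Prop
  | start : MInv [Symbol.nonterminal NT.start]
  | flo (r : ↥P) (u v a b : Str T N) (hab : a ++ b = u ++ v) (h : GR P S (a ++ r.1.1 ++ b)) :
      MInv (u.map (e1 P K) ++ tok r.1.2.length (NT.flo r) ++ v.map (e1 P K))
  | ab (r' : ↥P) (p : {l : List (Symbol T N) // l.length ≤ K}) (e : ℕ) (u v : Str T N)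
      (he : 1 ≤ e) (hep : e + p.1.length = r'.1.1.length)
      (h : ∀ v', v = p.1 ++ v' → ∃ a b, a ++ b = u ++ v' ∧ GR P S (a ++ r'.1.1 ++ b)) :
      MInv (u.map (e1 P K) ++ tok e (NT.ab r' p) ++ v.map (e1 P K))
  | done (s : Str T N) (h : GR P S s) : MInv (s.map (e1 P K))

theorem map_split {t : Str T N} {u' v' : Str T (NT T N P K)} (h : t.map (e1 P K) = u' ++ v') :
    ∃ u0 v0, u' = u0.map (e1 P K) ∧ v' = v0.map (e1 P K) ∧ t = u0 ++ v0 := by
  rw [List.map_eq_append_iff] at h
  obtain ⟨a, c, h1, h2, h3⟩ := h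
  exact ⟨a, c, h2.symm, h3.symm, h1⟩

theorem map_split2 {x t : Str T N} {V : Str T (NT T N P K)}
    (h : x.map (e1 P K) ++ V = t.map (e1 P K)) : ∃ v0, V = v0.map (e1 P K) ∧ t = x ++ v0 := by
  obtain ⟨u0, v0, h1, h2, h3⟩ := map_split h.symm
  refine ⟨v0, h2, ?_⟩
  rw [h3, List.map_injective_iff.mpr e1_injective h1]

theorem rr_head {r : Rule T (NT T N P K)} (hr : RR P K S r) :
    ∃ h X2, r.1 = Symbol.nonterminal h :: X2 ∧ HdT P K h := by
  cases hr with
  | start r h => exact ⟨_, _, rfl, trivial⟩
  | roam r => exact ⟨_, _, rfl, trivial⟩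
  | fin r => exact ⟨_, _, rfl, trivial⟩
  | far r r' => exact ⟨_, _, rfl, trivial⟩
  | put r r' w p e hO => exact ⟨_, _, rfl, trivial⟩
  | take r' p e he hep hp => exact ⟨_, _, rfl, trivial⟩

theorem minv_step {s t : Str T (NT T N P K)} (hs : MInv P K S s)
    (hst : JStep {r | RR P K S r} s t) : MInv P K S t := by
  obtain ⟨ρ, hρ, U, V, U', V', h1, h2, h3⟩ := hst
  cases hs with
  | start =>
    obtain ⟨h, X2, hX, hh⟩ := rr_head S hρ
    rw [hX] at h1
    have h4 : ([] : Str T (NT T N P K)) ++ Symbol.nonterminal NT.start :: [] =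
        U ++ Symbol.nonterminal h :: (X2 ++ V) := by
      rw [List.nil_append, h1]; simp
    obtain ⟨hU, hh2, hV⟩ := head_align (Hd := HdT P K) (by simp) (by simp) hh h4
    rw [List.append_eq_nil_iff] at hV
    have hUV : U' = [] ∧ V' = [] := by
      rw [hU, hV.2] at h3
      have := h3.symm
      simpa using this
    cases hρ with
    | start r hx =>
      rw [h2, hUV.1, hUV.2]
      exact MInv.flo r [] [] [] [] rfl (by
        rw [hx]; exact ReflTransGen.refl)
    | roam r => simp [tok] at hX; rw [← hX.1] at hh2; simp at hh2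
    | fin r => simp [tok] at hX; rw [← hX.1] at hh2; simp at hh2
    | far r r' => simp [tok] at hX; rw [← hX.1] at hh2; simp at hh2
    | put r r' w p e hO => simp [tok] at hX; rw [← hX.1] at hh2; simp at hh2
    | take r' p e he hep hp => simp [tok] at hX; rw [← hX.1] at hh2; simp at hh2
  | flo r u v a b hab hreach =>
    have hfl : ∀ α β, α ++ β = u ++ v → GR P S (α ++ r.1.2 ++ β) := by
      intro α β hαβ
      exact hreach.tail ⟨r.1, r.2, a, b, α, β, rfl, rfl, hab.trans hαβ.symm⟩
    obtain ⟨h, X2, hX, hh⟩ := rr_head S hρ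
    rw [hX] at h1
    have h4 : u.map (e1 P K) ++ Symbol.nonterminal (NT.flo r) ::
        (List.replicate (r.1.2.length - 1) (Symbol.nonterminal NT.fill) ++ v.map (e1 P K)) =
        U ++ Symbol.nonterminal h :: (X2 ++ V) := by
      have h5 : U ++ Symbol.nonterminal h :: (X2 ++ V) = U ++ Symbol.nonterminal h :: X2 ++ V := by
        simp
      rw [h5, ← h1]; simp [tok]
    obtain ⟨hU, hh2, hV⟩ := head_align (Hd := HdT P K) (not_head_map u) (by
      intro s hs
      rw [List.mem_append] at hs
      rcases hs with hs | hs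
      · exact not_head_fill _ s hs
      · exact not_head_map v s hs) hh h4
    cases hρ with
    | start r hx =>
      simp at hX; rw [← hX.1] at hh2; simp at hh2
    | roam r1 =>
      simp only [tok, List.cons.injEq, Symbol.nonterminal.injEq] at hX
      rw [← hX.1, NT.flo.injEq] at hh2
      subst hh2
      rw [← hX.2] at hV
      have hV' := List.append_cancel_left hV
      rw [hU, hV', ← List.map_append] at h3
      obtain ⟨u1, v1, hu1, hv1, huv⟩ := map_split h3
      rw [h2, hu1, hv1]
      exact MInv.flo r1 u1 v1 a b (hab.trans huv) hreach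
    | fin r1 =>
      simp only [tok, List.cons.injEq, Symbol.nonterminal.injEq] at hX
      rw [← hX.1, NT.flo.injEq] at hh2
      subst hh2
      rw [← hX.2] at hV
      have hV' := List.append_cancel_left hV
      rw [hU, hV', ← List.map_append] at h3
      obtain ⟨u1, v1, hu1, hv1, huv⟩ := map_split h3
      rw [h2, hu1, hv1, ← List.map_append, ← List.map_append]
      exact MInv.done _ (hfl u1 v1 huv.symm)
    | far r1 r' =>
      simp only [tok, List.cons_append, List.cons.injEq, Symbol.nonterminal.injEq] at hX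
      rw [← hX.1, NT.flo.injEq] at hh2
      subst hh2
      rw [← hX.2, List.append_assoc] at hV
      have hV' := List.append_cancel_left hV
      obtain ⟨v2, hv2, hv2'⟩ := map_split2 hV'
      rw [hU, hv2, ← List.map_append] at h3
      obtain ⟨u1, v1, hu1, hv1, huv⟩ := map_split h3
      have h6 : t = u1.map (e1 P K) ++ tok r'.1.2.length (NT.flo r') ++
          (r1.1.2 ++ v1).map (e1 P K) := by
        rw [h2, hu1, hv1]; simp
      rw [h6]
      rw [List.append_eq_append_iff] at huv
      rcases huv with ⟨m, hm1, hm2⟩ | ⟨m, hm1, hm2⟩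
      · -- u1 = u ++ m, v2 = m ++ v1
        refine MInv.flo r' u1 (r1.1.2 ++ v1) u (m ++ r1.1.2 ++ v1) ?_ ?_
        · rw [hm1]; simp
        · have := hfl (u ++ r'.1.1 ++ m) v1 (by rw [hv2', hm2]; simp)
          simpa using this
      · -- u = u1 ++ m, v1 = m ++ v2
        refine MInv.flo r' u1 (r1.1.2 ++ v1) (u1 ++ r1.1.2 ++ m) v2 ?_ ?_
        · rw [hm2]; simp
        · have := hfl u1 (m ++ r'.1.1 ++ v2) (by rw [hv2', hm1]; simp)
          simpa using this
    | put r1 r' w p e hO =>
      simp only [tok, List.cons.injEq, Symbol.nonterminal.injEq] at hX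
      rw [← hX.1, NT.flo.injEq] at hh2
      subst hh2
      rw [← hX.2] at hV
      have hV' := List.append_cancel_left hV
      rw [hU, hV', ← List.map_append] at h3
      obtain ⟨u1, v1, hu1, hv1, huv⟩ := map_split h3
      have h6 : t = (u1 ++ w).map (e1 P K) ++ tok e (NT.ab r' p) ++ v1.map (e1 P K) := by
        rw [h2, hu1, hv1]; simp
      rw [h6]
      refine MInv.ab r' p e _ _ hO.1 hO.2.1 ?_
      intro v' hv'
      obtain ⟨α, β, a', b', h7, h8, h9⟩ := hO.2.2.2.2 u1 v'
      refine ⟨a', b', h9, ?_⟩
      rw [← h8]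
      apply hfl
      rw [h7, huv, hv', List.append_assoc]
    | take r' p e he hep hp =>
      simp [tok] at hX; rw [← hX.1] at hh2; simp at hh2
  | ab r0 p0 e0 u v he0 hep0 hprop =>
    obtain ⟨h, X2, hX, hh⟩ := rr_head S hρ
    rw [hX] at h1
    have h4 : u.map (e1 P K) ++ Symbol.nonterminal (NT.ab r0 p0) ::
        (List.replicate (e0 - 1) (Symbol.nonterminal NT.fill) ++ v.map (e1 P K)) =
        U ++ Symbol.nonterminal h :: (X2 ++ V) := by
      have h5 : U ++ Symbol.nonterminal h :: (X2 ++ V) = U ++ Symbol.nonterminal h :: X2 ++ V := by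
        simp
      rw [h5, ← h1]; simp [tok]
    obtain ⟨hU, hh2, hV⟩ := head_align (Hd := HdT P K) (not_head_map u) (by
      intro s hs
      rw [List.mem_append] at hs
      rcases hs with hs | hs
      · exact not_head_fill _ s hs
      · exact not_head_map v s hs) hh h4
    cases hρ with
    | start r hx => simp at hX; rw [← hX.1] at hh2; simp at hh2
    | roam r => simp [tok] at hX; rw [← hX.1] at hh2; simp at hh2
    | fin r => simp [tok] at hX; rw [← hX.1] at hh2; simp at hh2
    | far r r' => simp [tok] at hX; rw [← hX.1] at hh2; simp at hh2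
    | put r r' w p e hO => simp [tok] at hX; rw [← hX.1] at hh2; simp at hh2
    | take r' p e he hep hp =>
      simp only [tok, List.cons_append, List.cons.injEq, Symbol.nonterminal.injEq] at hX
      rw [← hX.1, NT.ab.injEq] at hh2
      obtain ⟨rfl, rfl⟩ := hh2
      have hee : e = e0 := by omega
      subst hee
      rw [← hX.2, List.append_assoc] at hV
      have hV' := List.append_cancel_left hV
      obtain ⟨v2, hv2, hv2'⟩ := map_split2 hV'
      rw [hU, hv2, ← List.map_append] at h3
      obtain ⟨u1, v1, hu1, hv1, huv⟩ := map_split h3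
      obtain ⟨a, b, hab, hreach⟩ := hprop v2 hv2'
      rw [h2, hu1, hv1]
      exact MInv.flo r' u1 v1 a b (hab.trans huv) hreach
  | done s0 hreach =>
    exfalso
    obtain ⟨h, X2, hX, hh⟩ := rr_head S hρ
    have hmem : Symbol.nonterminal h ∈ s0.map (e1 P K) := by rw [h1, hX]; simp
    exact not_head_map s0 _ hmem ⟨h, rfl, hh⟩

theorem tok_sound {w : List T}
    (hw : w ∈ JLang {r | RR P K S r} (NT.start : NT T N P K)) : w ∈ JLang P S := by
  have key : ∀ t, ReflTransGen (JStep {r | RR P K S r}) [Symbol.nonterminal NT.start] t →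
      MInv P K S t := by
    intro t ht
    induction ht with
    | refl => exact MInv.start
    | tail _ hst ih => exact minv_step S ih hst
  have h1 := key _ hw
  have hno : ∀ h : NT T N P K, Symbol.nonterminal h ∉ w.map Symbol.terminal := by
    intro h hm
    rw [List.mem_map] at hm
    obtain ⟨x, -, hx⟩ := hm
    simp at hx
  generalize ht : w.map Symbol.terminal = t at h1 hno
  cases h1 with
  | start => exact absurd (by simp) (hno NT.start)
  | flo r u v a b hab hreach => exact absurd (by simp [tok]) (hno (NT.flo r))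
  | ab r0 p0 e0 u v he0 hep0 hprop => exact absurd (by simp [tok]) (hno (NT.ab r0 p0))
  | done s0 hreach =>
    have h2 : s0 = w.map Symbol.terminal := by
      apply List.map_injective_iff.mpr (e1_injective (P := P) (K := K))
      rw [← ht, List.map_map]
      rfl
    rw [h2] at hreach
    exact hreach

/-- The overlap lemma. -/
theorem overlap {u y v a x b : Str T N} (hx : 1 ≤ x.length) (hy : 1 ≤ y.length)
    (h : u ++ y ++ v = a ++ x ++ b) :
    (∃ f, u = a ++ x ++ f ∧ b = f ++ y ++ v) ∨ (∃ f, a = u ++ y ++ f ∧ v = f ++ x ++ b) ∨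
    (∃ c d w p e, Ov y x w p e ∧ u ++ v = c ++ p ++ d ∧ a ++ b = c ++ w ++ d) := by
  rw [List.append_assoc, List.append_assoc, List.append_eq_append_iff] at h
  rcases h with ⟨f, ha, hyv⟩ | ⟨f, hu, hxb⟩
  · -- a = u ++ f, y ++ v = f ++ (x ++ b)
    rw [List.append_eq_append_iff] at hyv
    rcases hyv with ⟨g, hf, hv⟩ | ⟨g, hf, hv⟩
    · -- f = y ++ g, v = g ++ (x ++ b)
      right; left
      exact ⟨g, by rw [ha, hf]; simp, by rw [hv]; simp⟩
    · -- y = f ++ g, x ++ b = g ++ v
      rw [List.append_eq_append_iff] at hv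
      rcases hv with ⟨k, hk, hk'⟩ | ⟨k, hk, hk'⟩
      · -- g = x ++ k, b = k ++ v : x inside y
        right; right
        refine ⟨u, v, f ++ k, [], x.length, ⟨hx, by simp, ?_, by simp, ?_⟩, by simp, ?_⟩
        · rw [hf, hk]; simp; omega
        · intro c d
          exact ⟨c, d, c ++ f, k ++ d, by simp, by rw [hf, hk]; simp, by simp⟩
        · rw [ha, hk']; simp
      · -- x = g ++ k, v = k ++ b
        by_cases hg : g = []
        · right; left
          refine ⟨[], ?_, ?_⟩
          · rw [ha, hf, hg]; simp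
          · rw [hk', hk, hg]; simp
        · right; right
          have hgl : 1 ≤ g.length := List.length_pos_iff.mpr hg
          refine ⟨u, b, f, k, g.length, ⟨hgl, by rw [hk]; simp, by rw [hf]; simp,
            by intro s hs; rw [hk]; simp [hs], ?_⟩, ?_, ?_⟩
          · intro c d
            exact ⟨c, k ++ d, c ++ f, d, by simp, by rw [hf, hk]; simp, by simp⟩
          · rw [hk']; simp
          · rw [ha]
  · -- u = a ++ f, x ++ b = f ++ (y ++ v)
    rw [List.append_eq_append_iff] at hxb
    rcases hxb with ⟨g, hf, hb⟩ | ⟨g, hf, hb⟩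
    · -- f = x ++ g, b = g ++ (y ++ v)
      left
      exact ⟨g, by rw [hu, hf]; simp, by rw [hb]; simp⟩
    · -- x = f ++ g, y ++ v = g ++ b
      rw [List.append_eq_append_iff] at hb
      rcases hb with ⟨k, hk, hk'⟩ | ⟨k, hk, hk'⟩
      · -- g = y ++ k, v = k ++ b : y inside x
        right; right
        refine ⟨a, b, [], f ++ k, y.length, ⟨hy, ?_, by simp, ?_, ?_⟩, ?_, by simp⟩
        · rw [hf, hk]; simp; omega
        · intro s hs
          rw [hf, hk]
          simp only [List.mem_append] at hs ⊢
          tauto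
        · intro c d
          exact ⟨c ++ f, k ++ d, c, d, by simp, by rw [hf, hk]; simp, by simp⟩
        · rw [hu, hk']; simp
      · -- y = g ++ k, b = k ++ v
        by_cases hg : g = []
        · left
          refine ⟨[], ?_, ?_⟩
          · rw [hu, hf, hg]; simp
          · rw [hk', hk, hg]; simp
        · right; right
          have hgl : 1 ≤ g.length := List.length_pos_iff.mpr hg
          refine ⟨a, v, k, f, g.length, ⟨hgl, by rw [hf]; simp; omega, by rw [hk]; simp; omega,
            by intro s hs; rw [hf]; simp [hs], ?_⟩, ?_, ?_⟩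
          · intro c d
            exact ⟨c ++ f, d, c, k ++ d, by simp, by rw [hf, hk]; simp, by simp⟩
          · rw [hu]
          · rw [hk']; simp

variable (P K) in
abbrev MR (t : Str T (NT T N P K)) : Prop :=
  ReflTransGen (JStep {r | RR P K S r}) [Symbol.nonterminal NT.start] t

theorem roamTo {r : ↥P} {u v u' v' : Str T N} (h : u ++ v = u' ++ v')
    (hr : MR P K S (u.map (e1 P K) ++ tok r.1.2.length (NT.flo r) ++ v.map (e1 P K))) :
    MR P K S (u'.map (e1 P K) ++ tok r.1.2.length (NT.flo r) ++ v'.map (e1 P K)) := by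
  refine hr.tail (jstep_of (RR.roam r) ?_)
  rw [← List.map_append, h, List.map_append]

theorem tok_complete (hM : Mono P) (hK : ∀ r ∈ P, r.1.length ≤ K) {w : List T}
    (hw : w ∈ JLang P S) : w ∈ JLang {r | RR P K S r} (NT.start : NT T N P K) := by
  have key : ∀ t, GR P S t → t = [Symbol.nonterminal S] ∨
      ∃ (r : ↥P) (u' v' : Str T N), t = u' ++ r.1.2 ++ v' ∧
        ∀ u v, u ++ v = u' ++ v' →
          MR P K S (u.map (e1 P K) ++ tok r.1.2.length (NT.flo r) ++ v.map (e1 P K)) := by
    intro t ht
    induction ht with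
    | refl => left; rfl
    | tail _ hst ih =>
      right
      obtain ⟨r', hr', a, b, a', b', h1, h2, h3⟩ := hst
      refine ⟨⟨r', hr'⟩, a', b', h2, ?_⟩
      have hx1 : 1 ≤ r'.1.length := hM.one_le ⟨r', hr'⟩
      suffices hsuf : ∃ u v, u ++ v = a' ++ b' ∧
          MR P K S (u.map (e1 P K) ++ tok r'.2.length (NT.flo ⟨r', hr'⟩) ++ v.map (e1 P K)) by
        obtain ⟨u, v, huv, hmr⟩ := hsuf
        intro u1 v1 huv1
        exact roamTo (r := ⟨r', hr'⟩) S (huv.trans huv1.symm) hmr
      rcases ih with ih | ⟨r, u', v', hs, hmr⟩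
      · -- first step
        rw [ih] at h1
        have h4 : a = [] ∧ b = [] ∧ r'.1 = [Symbol.nonterminal S] := by
          have hl := congrArg List.length h1
          simp only [List.length_append, List.length_cons, List.length_nil] at hl
          have ha : a = [] := List.length_eq_zero_iff.mp (by omega)
          have hb : b = [] := List.length_eq_zero_iff.mp (by omega)
          refine ⟨ha, hb, ?_⟩
          rw [ha, hb] at h1
          simpa using h1.symm
        obtain ⟨ha, hb, hx⟩ := h4
        rw [ha, hb] at h3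
        refine ⟨[], [], h3, ?_⟩
        refine ReflTransGen.refl.tail ?_
        have := jstep_of (P := {r | RR P K S r}) (RR.start ⟨r', hr'⟩ hx)
          (u := []) (v := []) (u' := []) (v' := []) rfl
        simpa using this
      · have hy1 : 1 ≤ r.1.2.length := hM.one_le' r
        rcases overlap hx1 hy1 (hs.symm.trans h1) with ⟨f, hu, hb⟩ | ⟨f, ha, hv⟩ |
            ⟨c, d, w', p, e, hO, huv, hab⟩
        · -- x' inside u'
          have h5 := hmr a (r'.1 ++ f ++ v') (by rw [hu]; simp)
          refine ⟨a ++ f, r.1.2 ++ v', by rw [← h3, hb]; simp, h5.tail ?_⟩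
          have h6 := jstep_of (P := {r | RR P K S r}) (RR.far r ⟨r', hr'⟩)
            (u := a.map (e1 P K)) (v := (f ++ v').map (e1 P K))
            (u' := (a ++ f).map (e1 P K)) (v' := v'.map (e1 P K)) (by simp)
          simpa [List.append_assoc] using h6
        · have h5 := hmr (u' ++ f) (r'.1 ++ b) (by rw [hv]; simp)
          refine ⟨u', r.1.2 ++ f ++ b, by rw [← h3, ha]; simp, h5.tail ?_⟩
          have h6 := jstep_of (P := {r | RR P K S r}) (RR.far r ⟨r', hr'⟩)
            (u := (u' ++ f).map (e1 P K)) (v := b.map (e1 P K))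
            (u' := u'.map (e1 P K)) (v' := (f ++ b).map (e1 P K)) (by simp)
          simpa [List.append_assoc] using h6
        · have h5 := hmr c (p ++ d) (by rw [huv]; simp)
          have hpK : p.length ≤ K := by
            have h7 := hK r' hr'
            have h8 := hO.2.1
            omega
          refine ⟨c ++ w', d, by rw [← h3, hab], (h5.tail
            (c := (c ++ w').map (e1 P K) ++ tok e (NT.ab ⟨r', hr'⟩ ⟨p, hpK⟩) ++
              (p ++ d).map (e1 P K)) ?_).tail ?_⟩
          · have h6 := jstep_of (P := {r | RR P K S r}) (RR.put r ⟨r', hr'⟩ w' ⟨p, hpK⟩ e hO)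
              (u := c.map (e1 P K)) (v := (p ++ d).map (e1 P K))
              (u' := c.map (e1 P K)) (v' := (p ++ d).map (e1 P K)) rfl
            simpa [List.append_assoc] using h6
          · have h6 := jstep_of (P := {r | RR P K S r})
              (RR.take ⟨r', hr'⟩ ⟨p, hpK⟩ e hO.1 hO.2.1 hO.2.2.2.1)
              (u := (c ++ w').map (e1 P K)) (v := d.map (e1 P K))
              (u' := (c ++ w').map (e1 P K)) (v' := d.map (e1 P K)) rfl
            simpa [List.append_assoc] using h6
  rcases key _ hw with h1 | ⟨r, u', v', hs, hmr⟩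
  · exfalso
    have : Symbol.nonterminal S ∈ w.map (Symbol.terminal : T → Symbol T N) := by rw [h1]; simp
    rw [List.mem_map] at this
    obtain ⟨x, -, hx⟩ := this
    simp at hx
  · have h2 := (hmr u' v' rfl).tail (jstep_of (P := {r | RR P K S r}) (RR.fin r)
      (u := u'.map (e1 P K)) (v := v'.map (e1 P K)) (u' := u'.map (e1 P K))
      (v' := v'.map (e1 P K)) rfl)
    rw [← List.map_append, ← List.map_append] at h2
    have h3 : (w.map Symbol.terminal : Str T (NT T N P K)) =
        (w.map (Symbol.terminal : T → Symbol T N)).map (e1 P K) := by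
      rw [List.map_map]; rfl
    show ReflTransGen _ _ _
    rw [h3, hs]
    exact h2

theorem tok_lang (hM : Mono P) (hK : ∀ r ∈ P, r.1.length ≤ K) :
    JLang {r | RR P K S r} (NT.start : NT T N P K) = JLang P S := by
  ext w
  exact ⟨tok_sound S, tok_complete S hM hK⟩

theorem finite_RR [Finite T] [Finite N] (hP : P.Finite)
    (hK : ∀ r ∈ P, r.1.length ≤ K ∧ r.2.length ≤ K) :
    {r | RR P K S r}.Finite := by
  have := finite_NT P K hP
  apply (finite_rules (T := T) (N := NT T N P K) (K + K + 1)).subset
  intro r hr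
  cases hr with
  | start r h =>
    have h1 := hK _ r.2
    simp [tok]
    omega
  | roam r =>
    have h1 := hK _ r.2
    simp [tok]
    omega
  | fin r =>
    have h1 := hK _ r.2
    simp [tok]
    omega
  | far r r' =>
    have h1 := hK _ r.2
    have h2 := hK _ r'.2
    simp [tok]
    omega
  | put r r' w p e hO =>
    have h1 := hK _ r.2
    have h2 := hK _ r'.2
    have h3 := hO.2.2.1
    simp [tok]
    omega
  | take r' p e he hep hp =>
    have h2 := hK _ r'.2
    simp [tok]
    omega

end Token

/-- Every monotone jumping grammar has an equivalent context-sensitive jumping grammar. -/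
theorem main {T N : Type} [Finite T] [Finite N] (S : N) (P : Set (Rule T N)) (hP : P.Finite)
    (hM : ∀ r ∈ P, (∃ A : N, Symbol.nonterminal A ∈ r.1) ∧ r.1.length ≤ r.2.length) :
    ∃ (N1 : Type) (_ : Fintype N1) (S1 : N1) (P1 : Set (Rule T N1)), P1.Finite ∧
      (∀ r ∈ P1, IsCS r) ∧ JLang P1 S1 = JLang P S := by
  classical
  have hfs : Finite (Symbol T N) := by
    have := Fintype.ofFinite T
    have := Fintype.ofFinite N
    exact Finite.of_fintype _
  obtain ⟨K, hK⟩ : ∃ K, ∀ r ∈ P, r.1.length ≤ K ∧ r.2.length ≤ K := by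
    have h1 := hP.image (fun r : Rule T N => max r.1.length r.2.length)
    obtain ⟨b, hb⟩ := h1.bddAbove
    refine ⟨b, fun r hr => ?_⟩
    have : max r.1.length r.2.length ≤ b :=
      hb (Set.mem_image_of_mem (fun r : Rule T N => max r.1.length r.2.length) hr)
    exact ⟨le_trans (le_max_left _ _) this, le_trans (le_max_right _ _) this⟩
  have hK1 : ∀ r ∈ P1 P, r.1.length ≤ K ∧ r.2.length ≤ K := by
    rintro r ⟨x, hx, hx'⟩
    have := hK _ hx
    rw [hx']
    simpa using this
  have hfin1 : (P1 P).Finite := (finite_rules (T := T) (N := Symbol T N) K).subset hK1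
  have hM1 : Mono (P1 P) := by
    refine ⟨?_, ?_, ?_⟩
    · rintro r ⟨x, hx, hx'⟩
      rw [hx']
      obtain ⟨⟨A, hA⟩, -⟩ := hM _ hx
      intro h
      rw [List.map_eq_nil_iff] at h
      simp only at hA
      rw [h] at hA
      simp at hA
    · rintro r ⟨x, hx, hx'⟩ s hs
      rw [hx', List.mem_map] at hs
      obtain ⟨y, -, rfl⟩ := hs
      exact ⟨y, rfl⟩
    · rintro r ⟨x, hx, hx'⟩
      have := (hM _ hx).2
      rw [hx']
      simpa using this
  have hfinNT := finite_NT (P1 P) K hfin1
  obtain ⟨N1, hN1, S1, Q, hQf, hQ, hL⟩ := conv (HdT (P1 P) K) (NT.start)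
    {r | RR (P1 P) K (Symbol.nonterminal S) r}
    (finite_RR (Symbol.nonterminal S) hfin1 hK1) (good (Symbol.nonterminal S) hM1)
  refine ⟨N1, hN1, S1, Q, hQf, hQ, ?_⟩
  rw [hL, tok_lang (Symbol.nonterminal S) hM1 (fun r hr => (hK1 r hr).1), lang_P1]

end Pool.Agent.MP_708d71_lc
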